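import Pool.Agent.Helper57.NS.Defs
import Pool.Agent.Helper24.UG.Ker
import Pool.Agent.Helper99.NR.G

/-!
# NS: blocks S1, S2, G1 (scales)
-/

set_option autoImplicit false
open MeasureTheory Set Filter Topology
open Pool.Agent.Helper57.Zeta Pool.Agent.Helper57.LH Pool.Agent.Helper57.ED
open Pool.Agent.Helper54.LG (za zb qk SS MM)
open Pool.Agent.Helper93.UG (zc sp)
open Pool.Agent.Helper69.UG (XX NX near far)
open Pool.Agent.Helper57.TX (QX DP rs)
open Pool.Agent.Helper57.NS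
open Pool.Agent.Helper24.UG (qk_closed qk_lower' summable_q0)
open Pool.Agent.Helper54.LG (qk_zero_nonneg qk_neg_right)

namespace Pool.Agent.Helper99.NS

/-- the scales form an interval -/
theorem fil_eq99 {b L u v : ℝ} {N : ℕ} (hb : 1 < b) (hL : 0 < L)
    (hN : v * (Real.log L / Real.log b) < N + 1) (hv : 0 ≤ v * (Real.log L / Real.log b)) :
    (Finset.range (N + 1)).filter (fun j : ℕ => L ^ u ≤ b ^ j ∧ b ^ j ≤ L ^ v) =
      Finset.Icc ⌈u * (Real.log L / Real.log b)⌉₊ ⌊v * (Real.log L / Real.log b)⌋₊ := by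
  have hlb : 0 < Real.log b := Real.log_pos hb
  have hb0 : 0 < b := by linarith
  ext j
  have hj0 : (0:ℝ) < b ^ j := by positivity
  have e1 : L ^ u ≤ b ^ j ↔ u * (Real.log L / Real.log b) ≤ j := by
    rw [← Real.log_le_log_iff (Real.rpow_pos_of_pos hL u) hj0, Real.log_rpow hL, Real.log_pow, mul_div_assoc',
      div_le_iff₀ hlb]
  have e2 : b ^ j ≤ L ^ v ↔ (j : ℝ) ≤ v * (Real.log L / Real.log b) := by
    rw [← Real.log_le_log_iff hj0 (Real.rpow_pos_of_pos hL v), Real.log_rpow hL, Real.log_pow, mul_div_assoc',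
      le_div_iff₀ hlb]
  rw [Finset.mem_filter, Finset.mem_range, Finset.mem_Icc, e1, e2, Nat.ceil_le, Nat.le_floor_iff hv]
  constructor
  · rintro ⟨-, h1, h2⟩
    exact ⟨h1, h2⟩
  · rintro ⟨h1, h2⟩
    refine ⟨?_, h1, h2⟩
    have h3 : (j : ℝ) < (N + 1 : ℕ) := by push_cast; linarith
    exact_mod_cast h3

/-- the number of integers in an interval -/
theorem card_Icc99 {x y : ℝ} (hx : 0 ≤ x) (hxy : x + 1 ≤ y) :
    y - x - 1 ≤ ((Finset.Icc ⌈x⌉₊ ⌊y⌋₊).card : ℝ) ∧ ((Finset.Icc ⌈x⌉₊ ⌊y⌋₊).card : ℝ) ≤ y - x + 1 ∧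
      ⌈x⌉₊ ≤ ⌊y⌋₊ := by
  have hy : 0 ≤ y := by linarith
  have a1 : (⌊y⌋₊ : ℝ) ≤ y := Nat.floor_le hy
  have a2 : y < ⌊y⌋₊ + 1 := Nat.lt_floor_add_one _
  have a3 : x ≤ ⌈x⌉₊ := Nat.le_ceil _
  have a4 : (⌈x⌉₊ : ℝ) < x + 1 := Nat.ceil_lt_add_one hx
  have hab : ⌈x⌉₊ ≤ ⌊y⌋₊ := by
    have h1 : (⌈x⌉₊ : ℝ) < ⌊y⌋₊ + 1 := by linarith
    have h2 : ⌈x⌉₊ < ⌊y⌋₊ + 1 := by exact_mod_cast h1
    omega
  rw [Nat.card_Icc, Nat.cast_sub (by omega)]
  push_cast
  exact ⟨by linarith, by linarith, hab⟩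

/-- the scales -/
theorem sc_eq99 {k L : ℝ} (hk : 0 < k) (hk8 : k ≤ 1 / 8) (hL : Real.exp 1 ≤ L) :
    0 < Real.log (1 + k) ∧ 8 ≤ Real.log L / Real.log (1 + k) ∧
    Sc k L = Finset.Icc ⌈k * (Real.log L / Real.log (1 + k))⌉₊ ⌊(1 - k) * (Real.log L / Real.log (1 + k))⌋₊ := by
  have hL0 : 0 < L := (Real.exp_pos 1).trans_le hL
  have hl : 1 ≤ Real.log L := by rwa [Real.le_log_iff_exp_le hL0]
  have hlb : 0 < Real.log (1 + k) := Real.log_pos (by linarith)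
  have h1 : Real.log (1 + k) ≤ k := by
    have := Real.log_le_sub_one_of_pos (show 0 < 1 + k by linarith)
    linarith
  have h2 : k / (1 + k) ≤ Real.log (1 + k) := by
    have := Real.one_sub_inv_le_log_of_pos (show 0 < 1 + k by linarith)
    have e : 1 - (1 + k)⁻¹ = k / (1 + k) := by field_simp; ring
    rwa [e] at this
  have hx8 : 8 ≤ Real.log L / Real.log (1 + k) := by
    rw [le_div_iff₀ hlb]
    linarith
  have hx : Real.log L / Real.log (1 + k) ≤ Real.log L * ((1 + k) / k) := by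
    rw [div_le_iff₀ hlb]
    have h3 : 1 ≤ (1 + k) / k * Real.log (1 + k) := by
      have h4 : (1 + k) / k * (k / (1 + k)) = 1 := by field_simp
      exact h4.symm.le.trans (mul_le_mul_of_nonneg_left h2 (by positivity))
    have h5 : 0 ≤ Real.log L := by linarith
    calc Real.log L = Real.log L * 1 := (mul_one _).symm
      _ ≤ Real.log L * ((1 + k) / k * Real.log (1 + k)) := mul_le_mul_of_nonneg_left h3 h5
      _ = _ := by ring
  refine ⟨hlb, hx8, ?_⟩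
  unfold Sc
  refine fil_eq99 (by linarith) hL0 ?_ (by nlinarith)
  have h6 : (1 - k) * (Real.log L / Real.log (1 + k)) ≤ L / k := by
    have h7 : Real.log L ≤ L := by
      have := Real.log_le_sub_one_of_pos hL0
      linarith
    have hk1 : 0 ≤ 1 - k := by linarith
    calc (1 - k) * (Real.log L / Real.log (1 + k)) ≤ (1 - k) * (Real.log L * ((1 + k) / k)) :=
          mul_le_mul_of_nonneg_left hx hk1
      _ = (1 - k ^ 2) * (Real.log L / k) := by ring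
      _ ≤ 1 * (L / k) := by
          apply mul_le_mul _ _ (by positivity) (by norm_num)
          · nlinarith [sq_nonneg k]
          · exact div_le_div_of_nonneg_right h7 hk.le
      _ = L / k := one_mul _
  exact h6.trans_lt (Nat.lt_floor_add_one _)

/-- S1: the number of the scales, `card log(1+k) = (1-2k) log L + O(log(1+k))` -/
theorem card_bd {k : ℝ} (hk : 0 < k) (hk8 : k ≤ 1 / 8) : ∃ C : ℝ, 1 ≤ C ∧ ∀ L : ℝ, C ≤ L →
    |((Sc k L).card : ℝ) * Real.log (1 + k) - (1 - 2 * k) * Real.log L| ≤ Real.log (1 + k) := by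
  refine ⟨Real.exp 1, Real.one_le_exp (by norm_num), fun L hL => ?_⟩
  obtain ⟨hlb, hx8, he⟩ := sc_eq99 hk hk8 hL
  obtain ⟨x, hx⟩ : ∃ x, x = Real.log L / Real.log (1 + k) := ⟨_, rfl⟩
  rw [← hx] at hx8 he
  have hl : Real.log L = x * Real.log (1 + k) := by rw [hx]; field_simp
  obtain ⟨c1, c2, -⟩ := card_Icc99 (x := k * x) (y := (1 - k) * x) (by positivity) (by nlinarith)
  rw [← he] at c1 c2
  rw [hl, abs_le]
  constructor
  · nlinarith
  · nlinarith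

/-- S2: the scales are a range -/
theorem sc_range {k : ℝ} (hk : 0 < k) (hk8 : k ≤ 1 / 8) : ∃ C : ℝ, 1 ≤ C ∧ ∀ L : ℝ, C ≤ L → ∃ a : ℕ,
    (∀ f : ℕ → ℝ, ∑ j ∈ Sc k L, f j = ∑ i ∈ Finset.range (Sc k L).card, f (a + i)) ∧ 1 ≤ (Sc k L).card ∧
    L ^ k ≤ (1 + k) ^ a ∧ (1 + k) ^ a ≤ (1 + k) * L ^ k ∧ (1 + k) ^ (a + (Sc k L).card - 1) ≤ L ^ (1 - k) ∧
    L ^ (1 - k) ≤ (1 + k) * (1 + k) ^ (a + (Sc k L).card - 1) := by
  refine ⟨Real.exp 1, Real.one_le_exp (by norm_num), fun L hL => ?_⟩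
  have hL0 : 0 < L := (Real.exp_pos 1).trans_le hL
  have hb0 : 0 < 1 + k := by linarith
  obtain ⟨hlb, hx8, he⟩ := sc_eq99 hk hk8 hL
  obtain ⟨x, hx⟩ : ∃ x, x = Real.log L / Real.log (1 + k) := ⟨_, rfl⟩
  rw [← hx] at hx8 he
  have hl : Real.log L = x * Real.log (1 + k) := by rw [hx]; field_simp
  obtain ⟨-, -, hab⟩ := card_Icc99 (x := k * x) (y := (1 - k) * x) (by positivity) (by nlinarith)
  obtain ⟨a, ha⟩ : ∃ a, a = ⌈k * x⌉₊ := ⟨_, rfl⟩
  obtain ⟨b, hb⟩ : ∃ b, b = ⌊(1 - k) * x⌋₊ := ⟨_, rfl⟩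
  rw [← ha, ← hb] at he hab
  have a1 : (b : ℝ) ≤ (1 - k) * x := by rw [hb]; exact Nat.floor_le (by nlinarith)
  have a2 : (1 - k) * x < b + 1 := by rw [hb]; exact Nat.lt_floor_add_one _
  have a3 : k * x ≤ a := by rw [ha]; exact Nat.le_ceil _
  have a4 : (a : ℝ) < k * x + 1 := by rw [ha]; exact Nat.ceil_lt_add_one (by positivity)
  have hc : (Sc k L).card = b + 1 - a := by rw [he, Nat.card_Icc]
  have h2 : a + (Sc k L).card - 1 = b := by omega
  refine ⟨a, ?_⟩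
  rw [h2]
  refine ⟨fun f => ?_, by omega, ?_, ?_, ?_, ?_⟩
  · rw [hc, he, ← Finset.Ico_add_one_right_eq_Icc, Finset.sum_Ico_eq_sum_range]
  · rw [← Real.log_le_log_iff (Real.rpow_pos_of_pos hL0 k) (by positivity), Real.log_rpow hL0, Real.log_pow, hl,
      ← mul_assoc]
    exact mul_le_mul_of_nonneg_right a3 hlb.le
  · rw [← Real.log_le_log_iff (by positivity) (mul_pos hb0 (Real.rpow_pos_of_pos hL0 k)),
      Real.log_mul hb0.ne' (Real.rpow_pos_of_pos hL0 k).ne', Real.log_rpow hL0, Real.log_pow, hl]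
    nlinarith
  · rw [← Real.log_le_log_iff (by positivity) (Real.rpow_pos_of_pos hL0 (1 - k)), Real.log_rpow hL0, Real.log_pow, hl,
      ← mul_assoc]
    exact mul_le_mul_of_nonneg_right a1 hlb.le
  · rw [← Real.log_le_log_iff (Real.rpow_pos_of_pos hL0 (1 - k)) (by positivity),
      Real.log_mul hb0.ne' (by positivity), Real.log_rpow hL0, Real.log_pow, hl]
    nlinarith

theorem ph_zb99 {k T L t : ℝ} (hk : 0 < k) (hT : 1 < T) (ρ : ℂ) :
    ph k L ((ρ.im - t) / sp T) = wk k L * ∑ j ∈ Sc k L, qk 0 (zb (XX T ((1 + k) ^ j)) t ρ) := by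
  have hL : 0 < Real.log T := Real.log_pos hT
  have hpi := Real.pi_pos
  have hb0 : 0 < 1 + k := by linarith
  unfold ph
  congr 1
  refine Finset.sum_congr rfl fun j _ => ?_
  have hj : (0:ℝ) < (1 + k) ^ j := by positivity
  have : 2 * Real.pi * ((ρ.im - t) / sp T) / (1 + k) ^ j = -(zb (XX T ((1 + k) ^ j)) t ρ) := by
    unfold sp zb XX
    generalize (1 + k) ^ j = B at hj ⊢
    field_simp
    ring
  rw [this, qk_neg_right]

/-- G1 -/
theorem tot_eq {k T L t : ℝ} (hk : 0 < k) (hT : 1 < T) : Tk k T L t = wk k L * ∑ j ∈ Sc k L, NX (XX T ((1 + k) ^ j)) t := by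
  have hb0 : 0 < 1 + k := by linarith
  unfold Tk Pool.Agent.Helper69.UG.NX
  rw [Finset.mul_sum]
  have hs : ∀ j ∈ Sc k L, Summable fun ρ : ZS => wk k L * (mx ρ * qk 0 (zb (XX T ((1 + k) ^ j)) t ρ)) := fun j _ =>
    (summable_q0 (Pool.Agent.Helper99.NR.XX_pos99 hT (by positivity)) t).mul_left _
  have e : ∀ j ∈ Sc k L, wk k L * ∑' ρ : ZS, mx ρ * qk 0 (zb (XX T ((1 + k) ^ j)) t ρ) =
      ∑' ρ : ZS, wk k L * (mx ρ * qk 0 (zb (XX T ((1 + k) ^ j)) t ρ)) := fun j _ => (tsum_mul_left).symm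
  rw [Finset.sum_congr rfl e, ← Summable.tsum_finsetSum hs]
  refine tsum_congr fun ρ => ?_
  rw [ph_zb99 hk hT, Finset.mul_sum, Finset.mul_sum]
  refine Finset.sum_congr rfl fun j _ => ?_
  ring

end Pool.Agent.Helper99.NS
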